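import Pool.Agent.Y664.NS.Split

/-!
Groups without free subgroups of rank two and their splittings.
-/

set_option autoImplicit false

namespace Pool.Agent.Y664.NS

open Monoid

/-- No two elements of `G` generate a free group of rank two freely. -/
def NoFreeGroup (G : Type) [Group G] : Prop :=
  ∀ f : FreeGroup Bool →* G, ¬ Function.Injective f

/-- `g` or its inverse. -/
def sg {K : Type} [Group K] (g : K) (e : Bool) : K := cond e g g⁻¹

section abstract_part

variable {K : Type} [Group K]

lemma NoFreeGroup.of_injective {G : Type} [Group G] (hK : NoFreeGroup K) (f : G →* K)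
    (hf : Function.Injective f) : NoFreeGroup G := by
  intro h hh
  exact hK (f.comp h) (hf.comp hh)

/-- the value of a word in the letters `g c`, `c : Bool`, and their inverses -/
def fv (g : Bool → K) (w : List (Bool × Bool)) : K := (w.map fun s => sg (g s.1) s.2).prod

lemma NoFreeGroup.exists_word (hK : NoFreeGroup K) (g : Bool → K) :
    ∃ (s : Bool × Bool) (w : List (Bool × Bool)),
      (s :: w).IsChain (fun a b => a.1 = b.1 → a.2 = b.2) ∧ fv g (s :: w) = 1 := by
  have h1 := hK (FreeGroup.lift g)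
  rw [injective_iff_map_eq_one] at h1
  push Not at h1
  obtain ⟨z, hz, hz1⟩ := h1
  have h2 : fv g z.toWord = 1 := by
    rw [← hz]
    conv_rhs => rw [← FreeGroup.mk_toWord (x := z)]
    rw [FreeGroup.lift_mk]
    rfl
  have h3 := FreeGroup.isReduced_toWord (x := z)
  cases hw : z.toWord with
  | nil =>
    exact absurd (FreeGroup.toWord_eq_nil_iff.1 hw) hz1
  | cons s w =>
    rw [hw] at h2 h3
    exact ⟨s, w, h3, h2⟩

/-- the value of a signed list of indices -/
def bv (B : Fin 3 → K) (N : List (Fin 3 × Bool)) : K := (N.map fun s => sg (B s.1) s.2).prod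

/-- one of the two indices different from zero -/
def kp (c : Bool) : Fin 3 := cond c 1 2

lemma kp_ne {c d : Bool} (h : c ≠ d) : kp c ≠ kp d := by
  revert h
  cases c <;> cases d <;> simp [kp]

/-- the two free generators -/
def gg (B : Fin 3 → K) (c : Bool) : K := B (kp c) * B (kp !c) * (B (kp c))⁻¹ * (B 0)⁻¹

/-- the shape of the list of a word with first letter `s` -/
def shape (s : Bool × Bool) (N : List (Fin 3 × Bool)) : Prop :=
  if s.2 then ∃ e R, N = (kp s.1, e) :: R else ∃ e R, N = (0, true) :: (kp s.1, e) :: R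

lemma free_words (B : Fin 3 → K) (w : List (Bool × Bool)) : ∀ s : Bool × Bool,
    (s :: w).IsChain (fun a b => a.1 = b.1 → a.2 = b.2) →
    ∃ N : List (Fin 3 × Bool), N.IsChain (fun a b => a.1 ≠ b.1) ∧
      bv B N = fv (gg B) (s :: w) ∧ shape s N := by
  induction w with
  | nil =>
    rintro ⟨c, e⟩ -
    cases e with
    | true =>
      refine ⟨[(kp c, true), (kp !c, true), (kp c, false), (0, false)], ?_, ?_, ?_⟩
      · cases c <;> simp [kp]
      · simp [bv, fv, gg, sg, mul_assoc]
      · exact ⟨_, _, rfl⟩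
    | false =>
      refine ⟨[(0, true), (kp c, true), (kp !c, false), (kp c, false)], ?_, ?_, ?_⟩
      · cases c <;> simp [kp]
      · simp [bv, fv, gg, sg, mul_assoc]
      · exact ⟨_, _, rfl⟩
  | cons t w ih =>
    rintro ⟨c, e⟩ hch
    rw [List.isChain_cons_cons] at hch
    obtain ⟨N', h1, h2, h3⟩ := ih t hch.2
    obtain ⟨d, f⟩ := t
    have hfv : fv (gg B) ((c, e) :: (d, f) :: w) = sg (gg B c) e * bv B N' := by
      rw [h2]
      simp [fv]
    have hcd := hch.1
    simp only at hcd
    rw [hfv]
    cases e with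
    | true =>
      cases f with
      | true =>
        obtain ⟨e', R, rfl⟩ := h3
        refine ⟨(kp c, true) :: (kp !c, true) :: (kp c, false) :: (0, false) :: (kp d, e') :: R,
          ?_, ?_, ?_⟩
        · simp only [List.isChain_cons_cons]
          refine ⟨?_, ?_, ?_, ?_, h1⟩
          · cases c <;> simp [kp]
          · cases c <;> simp [kp]
          · cases c <;> simp [kp]
          · cases d <;> simp [kp]
        · simp [bv, gg, sg, mul_assoc]
        · exact ⟨_, _, rfl⟩
      | false =>
        obtain ⟨e', R, rfl⟩ := h3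
        have hne : c ≠ d := fun h => by simpa using hcd h
        refine ⟨(kp c, true) :: (kp !c, true) :: (kp c, false) :: (kp d, e') :: R,
          ?_, ?_, ?_⟩
        · simp only [List.isChain_cons_cons] at h1 ⊢
          refine ⟨?_, ?_, ?_, h1.2⟩
          · cases c <;> simp [kp]
          · cases c <;> simp [kp]
          · exact kp_ne hne
        · simp [bv, gg, sg, mul_assoc]
        · exact ⟨_, _, rfl⟩
    | false =>
      cases f with
      | true =>
        obtain ⟨e', R, rfl⟩ := h3
        have hne : c ≠ d := fun h => by simpa using hcd h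
        refine ⟨(0, true) :: (kp c, true) :: (kp !c, false) :: (kp c, false) :: (kp d, e') :: R,
          ?_, ?_, ?_⟩
        · simp only [List.isChain_cons_cons]
          refine ⟨?_, ?_, ?_, ?_, h1⟩
          · cases c <;> simp [kp]
          · cases c <;> simp [kp]
          · cases c <;> simp [kp]
          · exact kp_ne hne
        · simp [bv, gg, sg, mul_assoc]
        · exact ⟨_, _, rfl⟩
      | false =>
        obtain ⟨e', R, rfl⟩ := h3
        refine ⟨(0, true) :: (kp c, true) :: (kp !c, false) :: (kp c, false) :: (0, true) ::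
          (kp d, e') :: R, ?_, ?_, ?_⟩
        · simp only [List.isChain_cons_cons] at h1 ⊢
          refine ⟨?_, ?_, ?_, ?_, h1⟩
          · cases c <;> simp [kp]
          · cases c <;> simp [kp]
          · cases c <;> simp [kp]
          · cases c <;> simp [kp]
        · simp [bv, gg, sg, mul_assoc]
        · exact ⟨_, _, rfl⟩

/-- If all nonempty alternating words are nontrivial, there is a free subgroup of rank two. -/
lemma not_noFree (B : Fin 3 → K) (hB : ∀ (s : Fin 3 × Bool) (N : List (Fin 3 × Bool)),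
    (s :: N).IsChain (fun a b => a.1 ≠ b.1) → bv B (s :: N) ≠ 1) : ¬ NoFreeGroup K := by
  intro hK
  obtain ⟨s, w, h1, h2⟩ := hK.exists_word (gg B)
  obtain ⟨N, h3, h4, h5⟩ := free_words B w s h1
  cases N with
  | nil =>
    unfold shape at h5
    split_ifs at h5 with h <;> obtain ⟨e, R, h6⟩ := h5 <;> exact absurd h6 (by simp)
  | cons t N => exact hB t N h3 (h4.trans h2)

end abstract_part

section amalgam

variable {A : Bool → Type} [∀ b, Group (A b)] {C : Type} [Group C] (φ : ∀ b, C →* A b)

lemma val_ne (hφ : ∀ b, Function.Injective (φ b)) (l : Σ j, A j) (T : List (Σ j, A j))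
    (hT : ∀ k ∈ l :: T, k.2 ∉ (φ k.1).range)
    (hc : (l :: T).IsChain (fun l l' : (Σ j, A j) => l.1 ≠ l'.1)) : val φ (l :: T) ≠ 1 := by
  intro h0
  have hne : ∀ {j : Bool} {x : A j}, x ∉ (φ j).range → x ≠ 1 := by
    rintro j x hx rfl
    exact hx (one_mem _)
  let w : CoprodI.Word A :=
    { toList := l :: T
      ne_one := fun k hk => hne (hT k hk)
      chain_ne := hc }
  have hred : PushoutI.Reduced φ w := hT
  have hprod : PushoutI.ofCoprodI (φ := φ) w.prod = 1 := by
    rw [← h0]
    simp only [w, CoprodI.Word.prod, val, map_list_prod, List.map_map]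
    congr 1
  have h3 := PushoutI.Reduced.eq_empty_of_mem_range hφ hred (by rw [hprod]; exact one_mem _)
  have h4 := congrArg (fun w => w.toList) h3
  simp [w, CoprodI.Word.empty] at h4

variable {i : Bool} (x : Fin 3 → A i) (b : A (!i))

/-- the conjugates of `b` -/
noncomputable def bb (k : Fin 3) : PushoutI φ :=
  PushoutI.of (φ := φ) i (x k) * PushoutI.of (φ := φ) (!i) b * (PushoutI.of (φ := φ) i (x k))⁻¹

lemma sg_bb (s : Fin 3 × Bool) : sg (bb φ x b s.1) s.2 = PushoutI.of (φ := φ) i (x s.1) *
    PushoutI.of (φ := φ) (!i) (sg b s.2) * (PushoutI.of (φ := φ) i (x s.1))⁻¹ := by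
  obtain ⟨k, e⟩ := s
  cases e <;> simp [sg, bb, mul_assoc]

lemma alt_form (hb : b ∉ (φ (!i)).range)
    (hx : ∀ k l, k ≠ l → (x k)⁻¹ * x l ∉ (φ i).range) (hx0 : x 0 = 1)
    (N : List (Fin 3 × Bool)) : ∀ s : Fin 3 × Bool, (s :: N).IsChain (fun a b => a.1 ≠ b.1) →
    ∃ (y : A (!i)) (L : List (Σ j, A j)), (∀ k ∈ (⟨!i, y⟩ :: L : List (Σ j, A j)),
      k.2 ∉ (φ k.1).range) ∧
      (⟨!i, y⟩ :: L : List (Σ j, A j)).IsChain (fun l l' : (Σ j, A j) => l.1 ≠ l'.1) ∧
      (PushoutI.of (φ := φ) i (x s.1))⁻¹ * bv (bb φ x b) (s :: N) = val φ (⟨!i, y⟩ :: L) := by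
  have hsb : ∀ e, sg b e ∉ (φ (!i)).range := by
    intro e
    cases e with
    | true => exact hb
    | false => exact fun h => hb (by simpa [sg] using inv_mem h)
  induction N with
  | nil =>
    intro s _
    have h1 : (PushoutI.of (φ := φ) i (x s.1))⁻¹ * bv (bb φ x b) [s] =
        PushoutI.of (φ := φ) (!i) (sg b s.2) * (PushoutI.of (φ := φ) i (x s.1))⁻¹ := by
      simp only [bv, List.map_cons, List.map_nil, List.prod_cons, List.prod_nil, mul_one, sg_bb]
      group
    by_cases hs : s.1 = 0
    · refine ⟨sg b s.2, [], ?_, by simp, ?_⟩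
      · intro k hk
        rw [List.mem_singleton] at hk
        subst hk
        exact hsb _
      · rw [h1, hs, hx0]
        simp [val]
    · refine ⟨sg b s.2, [⟨i, (x s.1)⁻¹⟩], ?_, ?_, ?_⟩
      · intro k hk
        rw [List.mem_cons, List.mem_singleton] at hk
        rcases hk with rfl | rfl
        · exact hsb _
        · have := hx s.1 0 hs
          rw [hx0, mul_one] at this
          exact this
      · cases i <;> simp
      · rw [h1]
        simp [val]
  | cons t N ih =>
    intro s hs
    rw [List.isChain_cons_cons] at hs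
    obtain ⟨y, L, h1, h2, h3⟩ := ih t hs.2
    refine ⟨sg b s.2, ⟨i, (x s.1)⁻¹ * x t.1⟩ :: ⟨!i, y⟩ :: L, ?_, ?_, ?_⟩
    · intro k hk
      rw [List.mem_cons, List.mem_cons] at hk
      rcases hk with rfl | rfl | hk
      · exact hsb _
      · exact hx _ _ hs.1
      · exact h1 k hk
    · rw [List.isChain_cons_cons, List.isChain_cons_cons]
      refine ⟨?_, ?_, h2⟩ <;> cases i <;> simp
    · have h4 : val φ (⟨!i, sg b s.2⟩ :: ⟨i, (x s.1)⁻¹ * x t.1⟩ :: ⟨!i, y⟩ :: L) =
          PushoutI.of (φ := φ) (!i) (sg b s.2) * (PushoutI.of (φ := φ) i (x s.1))⁻¹ *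
            PushoutI.of (φ := φ) i (x t.1) * val φ (⟨!i, y⟩ :: L) := by
        simp [val, mul_assoc]
      rw [h4, ← h3]
      have h5 : bv (bb φ x b) (s :: t :: N) = sg (bb φ x b s.1) s.2 * bv (bb φ x b) (t :: N) := by
        simp [bv]
      rw [h5, sg_bb]
      group

lemma alt_ne (hφ : ∀ b, Function.Injective (φ b)) (hb : b ∉ (φ (!i)).range)
    (hx : ∀ k l, k ≠ l → (x k)⁻¹ * x l ∉ (φ i).range) (hx0 : x 0 = 1)
    (s : Fin 3 × Bool) (N : List (Fin 3 × Bool)) (hs : (s :: N).IsChain (fun a b => a.1 ≠ b.1)) :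
    bv (bb φ x b) (s :: N) ≠ 1 := by
  intro h0
  obtain ⟨y, L, h1, h2, h3⟩ := alt_form φ x b hb hx hx0 N s hs
  rw [h0, mul_one] at h3
  by_cases hs0 : s.1 = 0
  · rw [hs0, hx0, map_one, inv_one] at h3
    exact val_ne φ hφ _ _ h1 h2 h3.symm
  · refine val_ne φ hφ ⟨i, x s.1⟩ (⟨!i, y⟩ :: L) ?_ ?_ ?_
    · intro k hk
      rw [List.mem_cons] at hk
      rcases hk with rfl | hk
      · have := hx 0 s.1 (Ne.symm hs0)
        rw [hx0, inv_one, one_mul] at this
        exact this
      · exact h1 k hk
    · rw [List.isChain_cons_cons]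
      refine ⟨?_, h2⟩
      cases i <;> simp
    · have h4 : val φ (⟨i, x s.1⟩ :: ⟨!i, y⟩ :: L) =
          PushoutI.of (φ := φ) i (x s.1) * val φ (⟨!i, y⟩ :: L) := by
        simp [val]
      rw [h4, ← h3, mul_inv_cancel]

/-- In an amalgam without free subgroups the amalgamated subgroup is normal. -/
lemma amalg_conj' (hφ : ∀ b, Function.Injective (φ b)) (hs : ∀ b, ¬ Function.Surjective (φ b))
    (hnf : NoFreeGroup (PushoutI φ)) (i : Bool) (a : A i) (c : C) :
    a⁻¹ * φ i c * a ∈ (φ i).range := by
  by_contra hc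
  have ha : a ∉ (φ i).range := by
    intro h
    exact hc (mul_mem (mul_mem (inv_mem h) ⟨c, rfl⟩) h)
  obtain ⟨b, hb⟩ : ∃ b : A (!i), b ∉ (φ (!i)).range := by
    by_contra hcon
    push Not at hcon
    exact hs (!i) (fun x => hcon x)
  have hca : φ i c * a ∉ (φ i).range := by
    intro h
    have := mul_mem (inv_mem (⟨c, rfl⟩ : φ i c ∈ (φ i).range)) h
    rw [inv_mul_cancel_left] at this
    exact ha this
  have hinv : ∀ {z : A i}, z ∉ (φ i).range → z⁻¹ ∉ (φ i).range := fun hz h =>
    hz (by simpa using inv_mem h)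
  refine not_noFree (bb φ (![1, a, φ i c * a] : Fin 3 → A i) b) ?_ hnf
  intro s N hN
  refine alt_ne φ _ b hφ hb ?_ rfl s N hN
  intro k l hkl
  have e1 : (φ i c * a)⁻¹ * a = (a⁻¹ * φ i c * a)⁻¹ := by group
  fin_cases k <;> fin_cases l
  · exact absurd rfl hkl
  · simpa using ha
  · simpa using hca
  · simpa using hinv ha
  · exact absurd rfl hkl
  · simpa [mul_assoc] using hc
  · have := hinv hca
    simpa using this
  · have := hinv hc
    rw [← e1] at this
    simpa using this
  · exact absurd rfl hkl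

lemma amalg_normal' (hφ : ∀ b, Function.Injective (φ b)) (hs : ∀ b, ¬ Function.Surjective (φ b))
    (hnf : NoFreeGroup (PushoutI φ)) : (PushoutI.base φ).range.Normal := by
  have key : ∀ g : PushoutI φ, ∀ c : C,
      g⁻¹ * PushoutI.base φ c * g ∈ (PushoutI.base φ).range := by
    intro g
    induction g using PushoutI.induction_on with
    | of i a =>
      intro c
      obtain ⟨d, hd⟩ := amalg_conj' φ hφ hs hnf i a c
      refine ⟨d, ?_⟩
      rw [← PushoutI.of_apply_eq_base φ i, ← PushoutI.of_apply_eq_base φ i, hd]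
      simp
    | base c' =>
      intro c
      exact ⟨c'⁻¹ * c * c', by simp⟩
    | mul x y hx hy =>
      intro c
      obtain ⟨d, hd⟩ := hx c
      obtain ⟨e, he⟩ := hy d
      refine ⟨e, ?_⟩
      rw [he, hd]
      group
  refine ⟨?_⟩
  rintro _ ⟨c, rfl⟩ g
  simpa using key g⁻¹ c

end amalgam

section hnn

variable {A : Type} [Group A] (C D : Subgroup A) (φ : C ≃* D) (a : A)

/-- the conjugators -/
def xx (c : Bool) : A := cond c 1 a

/-- the sign -/
def sn (e : Bool) : ℤˣ := cond e 1 (-1)

/-- the two free generators -/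
noncomputable def hg (c : Bool) : HNNExtension A C D φ :=
  HNNExtension.of (xx a c) * HNNExtension.t * (HNNExtension.of (xx a c))⁻¹

lemma sg_hg (s : Bool × Bool) : sg (hg C D φ a s.1) s.2 = HNNExtension.of (xx a s.1) *
    HNNExtension.t ^ (sn s.2 : ℤ) * (HNNExtension.of (xx a s.1))⁻¹ := by
  obtain ⟨k, e⟩ := s
  cases e <;> simp [sg, hg, sn, mul_assoc]

lemma sn_inj {e f : Bool} (h : sn e = sn f) : e = f := by
  cases e <;> cases f <;> simp_all [sn]

lemma hnn_form (haC : a ∉ C) (haD : a ∉ D) (w : List (Bool × Bool)) : ∀ s : Bool × Bool,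
    (s :: w).IsChain (fun a b => a.1 = b.1 → a.2 = b.2) →
    ∃ (g : A) (L : List (ℤˣ × A)),
      ((sn s.2, g) :: L).IsChain
        (fun a b => a.2 ∈ HNNExtension.toSubgroup C D a.1 → a.1 = b.1) ∧
      (HNNExtension.of (xx a s.1))⁻¹ * fv (hg C D φ a) (s :: w) =
        (((sn s.2, g) :: L).map fun x => (HNNExtension.t : HNNExtension A C D φ) ^ (x.1 : ℤ) *
          HNNExtension.of x.2).prod := by
  induction w with
  | nil =>
    intro s _
    refine ⟨(xx a s.1)⁻¹, [], by simp, ?_⟩
    simp only [fv, List.map_cons, List.map_nil, List.prod_cons, List.prod_nil, mul_one, sg_hg,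
      map_inv]
    group
  | cons t w ih =>
    intro s hs
    rw [List.isChain_cons_cons] at hs
    obtain ⟨g, L, h1, h2⟩ := ih t hs.2
    refine ⟨(xx a s.1)⁻¹ * xx a t.1, (sn t.2, g) :: L, ?_, ?_⟩
    · rw [List.isChain_cons_cons]
      refine ⟨?_, h1⟩
      intro hmem
      by_cases hst : s.1 = t.1
      · rw [hs.1 hst]
      · exfalso
        have hcases : ∀ u : ℤˣ, a ∉ HNNExtension.toSubgroup C D u := by
          intro u
          rcases Int.units_eq_one_or u with rfl | rfl
          · simpa using haC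
          · simpa using haD
        obtain ⟨s1, s2⟩ := s
        obtain ⟨t1, t2⟩ := t
        cases s1 <;> cases t1
        · exact hst rfl
        · simp only [xx, cond_true, cond_false, mul_one] at hmem
          exact hcases _ (by simpa using inv_mem hmem)
        · simp only [xx, cond_true, cond_false, inv_one, one_mul] at hmem
          exact hcases _ hmem
        · exact hst rfl
    · have h5 : fv (hg C D φ a) (s :: t :: w) =
          sg (hg C D φ a s.1) s.2 * fv (hg C D φ a) (t :: w) := by
        simp [fv]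
      rw [List.map_cons, List.prod_cons, ← h2, h5, sg_hg]
      simp only [map_mul, map_inv]
      group

/-- An HNN extension without free subgroups is ascending. -/
lemma hnn_asc (hnf : NoFreeGroup (HNNExtension A C D φ)) : C = ⊤ ∨ D = ⊤ := by
  by_contra hcon
  push Not at hcon
  obtain ⟨hC, hD⟩ := hcon
  obtain ⟨c, hc⟩ : ∃ y, y ∉ C := by
    by_contra hcon
    push Not at hcon
    exact hC (eq_top_iff.2 fun x _ => hcon x)
  obtain ⟨d, hd⟩ : ∃ y, y ∉ D := by
    by_contra hcon
    push Not at hcon
    exact hD (eq_top_iff.2 fun x _ => hcon x)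
  obtain ⟨a, haC, haD⟩ : ∃ a, a ∉ C ∧ a ∉ D := by
    by_cases h1 : c ∈ D
    · by_cases h2 : d ∈ C
      · refine ⟨c * d, fun h => hc ?_, fun h => hd ?_⟩
        · have := mul_mem h (inv_mem h2)
          rwa [mul_inv_cancel_right] at this
        · have := mul_mem (inv_mem h1) h
          rwa [inv_mul_cancel_left] at this
      · exact ⟨d, h2, hd⟩
    · exact ⟨c, hc, h1⟩
  obtain ⟨s, w, h1, h2⟩ := hnf.exists_word (hg C D φ a)
  obtain ⟨g, L, h3, h4⟩ := hnn_form C D φ a haC haD w s h1
  let W : HNNExtension.NormalWord.ReducedWord A C D :=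
    { head := xx a s.1
      toList := (sn s.2, g) :: L
      chain := h3 }
  have hprod : W.prod φ = 1 := by
    have h5 : W.prod φ = HNNExtension.of (xx a s.1) *
      (((sn s.2, g) :: L).map fun x => (HNNExtension.t : HNNExtension A C D φ) ^ (x.1 : ℤ) *
          HNNExtension.of x.2).prod := rfl
    rw [h5, ← h4, h2, mul_one, mul_inv_cancel]
  have h6 := HNNExtension.ReducedWord.toList_eq_nil_of_mem_of_range φ W (by
    rw [hprod]; exact one_mem _)
  simp [W] at h6

end hnn

end Pool.Agent.Y664.NS
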