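import Mathlib

/-!
Groups without free subsemigroups of rank two and their splittings.
-/

set_option autoImplicit false

namespace Pool.Agent.Y664.NS

open Monoid

/-- The product of the word `L` in the letters `g` (for `true`) and `h` (for `false`). -/
def ev {G : Type} [Group G] (g h : G) (L : List Bool) : G :=
  (L.map fun e => cond e g h).prod

/-- No two elements of `G` generate a free semigroup of rank two: for any two elements there are
two distinct words in them with the same value. -/
def NoFree (G : Type) [Group G] : Prop :=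
  ∀ g h : G, ∃ L M : List Bool, L ≠ M ∧ ev g h L = ev g h M

section basic

variable {G : Type} [Group G]

lemma ev_nil (g h : G) : ev g h [] = 1 := rfl

lemma ev_cons (g h : G) (e : Bool) (L : List Bool) : ev g h (e :: L) = cond e g h * ev g h L := by
  simp [ev]

lemma ev_append (g h : G) (L M : List Bool) : ev g h (L ++ M) = ev g h L * ev g h M := by
  simp [ev]

lemma ev_map {K : Type} [Group K] (f : G →* K) (g h : G) (L : List Bool) :
    f (ev g h L) = ev (f g) (f h) L := by
  induction L with
  | nil => simp [ev_nil]
  | cons e L ih => cases e <;> simp [ev_cons, ih]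

/-- First letters can be made distinct. -/
lemma split_first (g h : G) : ∀ L M : List Bool, L ≠ M → ev g h L = ev g h M →
    ∃ L' M' : List Bool, ev g h (true :: L') = ev g h (false :: M') := by
  intro L
  induction L with
  | nil =>
    intro M hne heq
    cases M with
    | nil => exact absurd rfl hne
    | cons b M' =>
      have h1 : ∀ x : Bool, ev g h [x] = ev g h (b :: (M' ++ [x])) := by
        intro x
        rw [← List.cons_append, ev_append, ← heq, ev_nil, one_mul]
      cases b with
      | true => exact ⟨_, _, (h1 false).symm⟩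
      | false => exact ⟨_, _, h1 true⟩
  | cons a L ih =>
    intro M hne heq
    cases M with
    | nil =>
      have h1 : ∀ x : Bool, ev g h [x] = ev g h (a :: (L ++ [x])) := by
        intro x
        rw [← List.cons_append, ev_append, heq, ev_nil, one_mul]
      cases a with
      | true => exact ⟨_, _, (h1 false).symm⟩
      | false => exact ⟨_, _, h1 true⟩
    | cons b M' =>
      by_cases hab : a = b
      · subst hab
        apply ih M' (fun h' => hne (by rw [h']))
        rw [ev_cons, ev_cons] at heq
        exact mul_left_cancel heq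
      · cases a with
        | true =>
          have : b = false := by cases b <;> simp_all
          subst this
          exact ⟨_, _, heq⟩
        | false =>
          have : b = true := by cases b <;> simp_all
          subst this
          exact ⟨_, _, heq.symm⟩

lemma NoFree.first (hG : NoFree G) (g h : G) :
    ∃ L M : List Bool, ev g h (true :: L) = ev g h (false :: M) := by
  obtain ⟨L, M, h1, h2⟩ := hG g h
  exact split_first g h L M h1 h2

lemma NoFree.of_injective {K : Type} [Group K] (hK : NoFree K) (f : G →* K)
    (hf : Function.Injective f) : NoFree G := by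
  intro g h
  obtain ⟨L, M, h1, h2⟩ := hK (f g) (f h)
  exact ⟨L, M, h1, hf (by rw [ev_map, ev_map, h2])⟩

end basic

section amalgam

variable {A : Bool → Type} [∀ b, Group (A b)] {C : Type} [Group C] (φ : ∀ b, C →* A b)

section words

variable {i : Bool} (p : Bool → A i) (q : Bool → A (!i))

/-- a positive word -/
def pos : List Bool → List (Σ j, A j)
  | [] => []
  | e :: L => ⟨i, p e⟩ :: ⟨!i, q e⟩ :: pos L

/-- the inverse of a positive word in front of a word -/
def ext : List Bool → List (Σ j, A j) → List (Σ j, A j)
  | [], T => T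
  | e :: L, T => ext L (⟨!i, (q e)⁻¹⟩ :: ⟨i, (p e)⁻¹⟩ :: T)

/-- the value of a list of syllables -/
noncomputable def val (T : List (Σ j, A j)) : PushoutI φ :=
  (T.map fun l => PushoutI.of (φ := φ) l.1 l.2).prod

/-- the letters -/
noncomputable def lt (e : Bool) : PushoutI φ :=
  PushoutI.of (φ := φ) i (p e) * PushoutI.of (φ := φ) (!i) (q e)

lemma val_pos (L : List Bool) :
    val φ (pos p q L) = ev (lt φ p q true) (lt φ p q false) L := by
  induction L with
  | nil => simp [pos, val, ev_nil]
  | cons e L ih =>
    rw [ev_cons, ← ih]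
    cases e <;> simp [pos, val, lt, mul_assoc]

lemma val_ext (L : List Bool) : ∀ T, val φ (ext p q L T) =
    (ev (lt φ p q true) (lt φ p q false) L)⁻¹ * val φ T := by
  induction L with
  | nil => intro T; simp [ext, ev_nil]
  | cons e L ih =>
    intro T
    rw [ext, ih, ev_cons, mul_inv_rev]
    cases e <;> simp [val, lt, mul_assoc]

lemma mem_pos (hp : ∀ e, p e ∉ (φ i).range) (hq : ∀ e, q e ∉ (φ (!i)).range) (L : List Bool) :
    ∀ l ∈ pos p q L, l.2 ∉ (φ l.1).range := by
  induction L with
  | nil => simp [pos]
  | cons e L ih =>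
    intro l hl
    rw [pos, List.mem_cons, List.mem_cons] at hl
    rcases hl with rfl | rfl | hl
    exacts [hp e, hq e, ih l hl]

lemma mem_ext (hp : ∀ e, p e ∉ (φ i).range) (hq : ∀ e, q e ∉ (φ (!i)).range) (L : List Bool) :
    ∀ T : List (Σ j, A j), (∀ l ∈ T, l.2 ∉ (φ l.1).range) →
      ∀ l ∈ ext p q L T, l.2 ∉ (φ l.1).range := by
  induction L with
  | nil => intro T hT; exact hT
  | cons e L ih =>
    intro T hT
    apply ih
    intro l hl
    rw [List.mem_cons, List.mem_cons] at hl
    rcases hl with rfl | rfl | hl
    · exact fun h => hq e (by simpa using inv_mem h)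
    · exact fun h => hp e (by simpa using inv_mem h)
    · exact hT l hl

lemma chain_pos (L : List Bool) : ∀ x : A (!i),
    List.IsChain (fun l l' : (Σ j, A j) => l.1 ≠ l'.1) (⟨!i, x⟩ :: pos p q L) := by
  induction L with
  | nil => intro x; simp [pos]
  | cons e L ih =>
    intro x
    rw [pos, List.isChain_cons_cons, List.isChain_cons_cons]
    refine ⟨?_, ?_, ih _⟩ <;> cases i <;> simp

lemma chain_ext (L : List Bool) : ∀ (x : A (!i)) (T : List (Σ j, A j)),
    List.IsChain (fun l l' : (Σ j, A j) => l.1 ≠ l'.1) (⟨!i, x⟩ :: T) →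
    List.IsChain (fun l l' : (Σ j, A j) => l.1 ≠ l'.1) (ext p q L (⟨!i, x⟩ :: T)) := by
  induction L with
  | nil => intro x T h; exact h
  | cons e L ih =>
    intro x T h
    apply ih
    rw [List.isChain_cons_cons, List.isChain_cons_cons]
    refine ⟨?_, ?_, h⟩ <;> cases i <;> simp

lemma ext_ne_nil (L : List Bool) : ∀ T : List (Σ j, A j), T ≠ [] → ext p q L T ≠ [] := by
  induction L with
  | nil => intro T h; exact h
  | cons e L ih =>
    intro T h
    exact ih _ (by simp)

end words

/-- The two words have different values. -/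
lemma words_ne (hφ : ∀ b, Function.Injective (φ b)) {i : Bool} (p : Bool → A i) (q : Bool → A (!i))
    (hp : ∀ e, p e ∉ (φ i).range) (hq : ∀ e, q e ∉ (φ (!i)).range)
    (hm : (p true)⁻¹ * p false ∉ (φ i).range) (L M : List Bool) :
    ev (lt φ p q true) (lt φ p q false) (true :: L) ≠
      ev (lt φ p q true) (lt φ p q false) (false :: M) := by
  intro heq
  have hne : ∀ {j : Bool} {x : A j}, x ∉ (φ j).range → x ≠ 1 := by
    rintro j x hx rfl
    exact hx (one_mem _)
  set T : List (Σ j, A j) := ⟨!i, (q true)⁻¹⟩ :: ⟨i, (p true)⁻¹ * p false⟩ :: ⟨!i, q false⟩ ::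
    pos p q M with hT
  have hTm : ∀ l ∈ T, l.2 ∉ (φ l.1).range := by
    intro l hl
    rw [hT, List.mem_cons, List.mem_cons, List.mem_cons] at hl
    rcases hl with rfl | rfl | rfl | hl
    · exact fun h => hq true (by simpa using inv_mem h)
    · exact hm
    · exact hq false
    · exact mem_pos φ p q hp hq M l hl
  have hmem := mem_ext φ p q hp hq L T hTm
  have hTc : List.IsChain (fun l l' : (Σ j, A j) => l.1 ≠ l'.1) T := by
    rw [hT, List.isChain_cons_cons, List.isChain_cons_cons]
    refine ⟨?_, ?_, chain_pos p q M _⟩ <;> cases i <;> simp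
  let w : CoprodI.Word A :=
    { toList := ext p q L T
      ne_one := fun l hl => hne (hmem l hl)
      chain_ne := chain_ext p q L _ _ hTc }
  have hred : PushoutI.Reduced φ w := hmem
  have hprod : PushoutI.ofCoprodI (φ := φ) w.prod = 1 := by
    have h1 : PushoutI.ofCoprodI (φ := φ) w.prod = val φ (ext p q L T) := by
      simp only [w, CoprodI.Word.prod, val, map_list_prod, List.map_map]
      congr 1
    rw [h1, val_ext]
    have h2 : val φ T = (lt φ p q true)⁻¹ * (lt φ p q false *
        ev (lt φ p q true) (lt φ p q false) M) := by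
      rw [← val_pos]
      simp [hT, val, lt, mul_assoc]
    rw [ev_cons, ev_cons] at heq
    simp only [cond_true, cond_false] at heq
    rw [h2, ← heq]
    group
  have h3 := PushoutI.Reduced.eq_empty_of_mem_range hφ hred (by rw [hprod]; exact one_mem _)
  have h4 := congrArg (fun w => w.toList) h3
  exact ext_ne_nil p q L T (by simp [hT]) h4

/-- In an amalgam without free subsemigroups the amalgamated subgroup is normal. -/
lemma amalg_conj (hφ : ∀ b, Function.Injective (φ b)) (hs : ∀ b, ¬ Function.Surjective (φ b))
    (hnf : NoFree (PushoutI φ)) (i : Bool) (a : A i) (c : C) :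
    a⁻¹ * φ i c * a ∈ (φ i).range := by
  by_contra hc
  have ha : a ∉ (φ i).range := by
    intro h
    exact hc (mul_mem (mul_mem (inv_mem h) ⟨c, rfl⟩) h)
  obtain ⟨b, hb⟩ : ∃ b : A (!i), b ∉ (φ (!i)).range := by
    by_contra hcon
    push Not at hcon
    exact hs (!i) (fun x => hcon x)
  have hpa : ∀ e : Bool, cond e a (φ i c * a) ∉ (φ i).range := by
    intro e
    cases e with
    | true => exact ha
    | false =>
      intro h
      have := mul_mem (inv_mem (⟨c, rfl⟩ : φ i c ∈ (φ i).range)) h
      simp only [cond_false, inv_mul_cancel_left] at this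
      exact ha this
  have hqb : ∀ e : Bool, cond e b (b * (φ (!i) c)⁻¹) ∉ (φ (!i)).range := by
    intro e
    cases e with
    | true => exact hb
    | false =>
      intro h
      have := mul_mem h (⟨c, rfl⟩ : φ (!i) c ∈ (φ (!i)).range)
      simp only [cond_false, inv_mul_cancel_right] at this
      exact hb this
  obtain ⟨L, M, h1⟩ := hnf.first (lt φ (fun e => cond e a (φ i c * a))
    (fun e => cond e b (b * (φ (!i) c)⁻¹)) true) (lt φ (fun e => cond e a (φ i c * a))
    (fun e => cond e b (b * (φ (!i) c)⁻¹)) false)
  refine words_ne φ hφ _ _ hpa hqb ?_ L M h1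
  simpa [mul_assoc] using hc

lemma amalg_normal (hφ : ∀ b, Function.Injective (φ b)) (hs : ∀ b, ¬ Function.Surjective (φ b))
    (hnf : NoFree (PushoutI φ)) : (PushoutI.base φ).range.Normal := by
  have key : ∀ g : PushoutI φ, ∀ c : C,
      g⁻¹ * PushoutI.base φ c * g ∈ (PushoutI.base φ).range := by
    intro g
    induction g using PushoutI.induction_on with
    | of i a =>
      intro c
      obtain ⟨d, hd⟩ := amalg_conj φ hφ hs hnf i a c
      refine ⟨d, ?_⟩
      rw [← PushoutI.of_apply_eq_base φ i, ← PushoutI.of_apply_eq_base φ i, hd]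
      simp
    | base c' =>
      intro c
      exact ⟨c'⁻¹ * c * c', by simp⟩
    | mul x y hx hy =>
      intro c
      obtain ⟨d, hd⟩ := hx c
      obtain ⟨e, he⟩ := hy d
      refine ⟨e, ?_⟩
      rw [he, hd]
      group
  refine ⟨?_⟩
  rintro _ ⟨c, rfl⟩ g
  simpa using key g⁻¹ c

end amalgam

section hnn

variable {A : Type} [Group A] (C D : Subgroup A) (φ : C ≃* D) (u : ℤˣ) (y : A)

/-- the inverse of a positive word in front of a word -/
def hext : List Bool → A → List (ℤˣ × A) → A × List (ℤˣ × A)
  | [], h, T => (h, T)
  | e :: L, h, T => hext L (cond e 1 y)⁻¹ ((-u, h) :: T)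

/-- a positive word -/
def hpos (L : List Bool) : List (ℤˣ × A) := L.map fun e => (u, cond e 1 y)

/-- the value of a word -/
noncomputable def hval (h : A) (T : List (ℤˣ × A)) : HNNExtension A C D φ :=
  HNNExtension.of h * (T.map fun x => HNNExtension.t ^ (x.1 : ℤ) * HNNExtension.of x.2).prod

lemma hval_pos (L : List Bool) : hval C D φ 1 (hpos u y L) =
    ev (HNNExtension.t ^ (u : ℤ)) (HNNExtension.t ^ (u : ℤ) * HNNExtension.of y) L := by
  induction L with
  | nil => simp [hpos, hval, ev_nil]
  | cons e L ih =>
    rw [ev_cons, ← ih]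
    cases e <;> simp [hpos, hval]

lemma hval_ext (L : List Bool) : ∀ (h : A) (T : List (ℤˣ × A)),
    hval C D φ (hext u y L h T).1 (hext u y L h T).2 =
    (ev (HNNExtension.t ^ (u : ℤ)) (HNNExtension.t ^ (u : ℤ) * HNNExtension.of y) L)⁻¹ *
      hval C D φ h T := by
  induction L with
  | nil => intro h T; simp [hext, ev_nil]
  | cons e L ih =>
    intro h T
    rw [hext, ih, ev_cons, mul_inv_rev]
    cases e <;> simp [hval, mul_assoc]

lemma hchain_ext (L : List Bool) : ∀ (h : A) (T : List (ℤˣ × A)),
    T.IsChain (fun a b => a.2 ∈ HNNExtension.toSubgroup C D a.1 → a.1 = b.1) →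
    (∀ x ∈ T.head?, h ∈ HNNExtension.toSubgroup C D (-u) → -u = x.1) →
    (hext u y L h T).2.IsChain (fun a b => a.2 ∈ HNNExtension.toSubgroup C D a.1 → a.1 = b.1) := by
  induction L with
  | nil => intro h T h1 _; exact h1
  | cons e L ih =>
    intro h T h1 h2
    apply ih
    · rw [List.isChain_cons]
      exact ⟨h2, h1⟩
    · intro x hx
      simp only [List.head?_cons, Option.mem_def, Option.some.injEq] at hx
      subst hx
      exact fun _ => rfl

lemma hext_ne_nil (L : List Bool) : ∀ (h : A) (T : List (ℤˣ × A)), T ≠ [] →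
    (hext u y L h T).2 ≠ [] := by
  induction L with
  | nil => intro h T hT; exact hT
  | cons e L ih =>
    intro h T hT
    exact ih _ _ (by simp)

lemma hchain_pos (L : List Bool) :
    (hpos u y L).IsChain (fun a b => a.2 ∈ HNNExtension.toSubgroup C D a.1 → a.1 = b.1) := by
  induction L with
  | nil => simp [hpos]
  | cons e L ih =>
    rw [hpos, List.map_cons, List.isChain_cons]
    refine ⟨?_, ih⟩
    intro x hx _
    cases L with
    | nil => simp at hx
    | cons e' L' =>
      simp only [List.map_cons, List.head?_cons, Option.mem_def, Option.some.injEq] at hx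
      subst hx
      rfl

/-- In an HNN extension without free subsemigroups the associated subgroups are the base. -/
lemma hnn_mem (hnf : NoFree (HNNExtension A C D φ)) :
    y ∈ HNNExtension.toSubgroup C D (-u) := by
  by_contra hy
  obtain ⟨L, M, h1⟩ := hnf.first (HNNExtension.t ^ (u : ℤ))
    (HNNExtension.t ^ (u : ℤ) * HNNExtension.of y)
  have h2 : ev (HNNExtension.t ^ (u : ℤ)) (HNNExtension.t ^ (u : ℤ) * HNNExtension.of y)
      (L ++ [true]) = (HNNExtension.of y : HNNExtension A C D φ) *
      ev (HNNExtension.t ^ (u : ℤ)) (HNNExtension.t ^ (u : ℤ) * HNNExtension.of y)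
        (M ++ [true]) := by
    rw [ev_cons, ev_cons] at h1
    simp only [cond_true, cond_false, mul_assoc] at h1
    rw [ev_append, ev_append, mul_left_cancel h1, mul_assoc]
  let w : HNNExtension.NormalWord.ReducedWord A C D :=
    { head := (hext u y (L ++ [true]) y (hpos u y (M ++ [true]))).1
      toList := (hext u y (L ++ [true]) y (hpos u y (M ++ [true]))).2
      chain := by
        apply hchain_ext
        · exact hchain_pos C D u y _
        · intro x _ h
          exact absurd h hy }
  have hprod : w.prod φ = 1 := by
    have h3 : w.prod φ = hval C D φ (hext u y (L ++ [true]) y (hpos u y (M ++ [true]))).1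
      (hext u y (L ++ [true]) y (hpos u y (M ++ [true]))).2 := rfl
    have h4 : hval C D φ y (hpos u y (M ++ [true])) = HNNExtension.of y *
        hval C D φ 1 (hpos u y (M ++ [true])) := by
      simp [hval]
    rw [h3, hval_ext, h4, hval_pos, ← h2, inv_mul_cancel]
  have h5 := HNNExtension.ReducedWord.toList_eq_nil_of_mem_of_range φ w (by
    rw [hprod]; exact one_mem _)
  exact hext_ne_nil u y _ _ _ (by simp [hpos]) h5

lemma hnn_top (hnf : NoFree (HNNExtension A C D φ)) : C = ⊤ ∧ D = ⊤ := by
  constructor
  · rw [eq_top_iff]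
    intro y _
    have := hnn_mem C D φ (-1) y hnf
    simpa using this
  · rw [eq_top_iff]
    intro y _
    have := hnn_mem C D φ 1 y hnf
    simpa using this

/-- the stable letter is not in the base -/
lemma t_not_mem : (HNNExtension.t : HNNExtension A C D φ) ∉
    (HNNExtension.of : A →* HNNExtension A C D φ).range := by
  rintro ⟨a, ha⟩
  let F : HNNExtension A C D φ →* Multiplicative ℤ :=
    HNNExtension.lift 1 (Multiplicative.ofAdd 1) (by intro a; simp)
  have h := congrArg F ha
  simp only [F, HNNExtension.lift_of, HNNExtension.lift_t, MonoidHom.one_apply] at h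
  have := congrArg Multiplicative.toAdd h
  simp at this

end hnn

end Pool.Agent.Y664.NS
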